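import Pool.Agent.N370.CF.Pack

/-!
# MP_b5f1b3_co: every claw-free cubic graph is (1,1,2,3)-packing colourable

Answer to Q1: yes.
-/

set_option autoImplicit false

namespace Pool.Agent.Results.MP_b5f1b3_co.ClawFreeCubic

open Pool.Agent.N370.CF

/-- Every claw-free cubic graph is `(1,1,2,3)`-packing colourable. -/
theorem result (V : Type*) [Fintype V] (G : SimpleGraph V) [DecidableRel G.Adj]
    (hcubic : G.IsRegularOfDegree 3) (hclaw : ClawFree G) :
    PackingColourable G ![1, 1, 2, 3] :=
  colourable_of_cc (cc_of hcubic hclaw)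

end Pool.Agent.Results.MP_b5f1b3_co.ClawFreeCubic
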